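import Pool.Agent.H92.EHD.TK
import Pool.Agent.H80.EQ.KF

/-!
# Board MP_75a732_an, row EKF (after helper80 and helper14)
-/

set_option autoImplicit false

namespace Pool.Agent.H55.EHD

open scoped BigOperators ComplexConjugate ContDiff ComplexOrder
open MeasureTheory
open Pool.Agent.H92.EQ Pool.Agent.H92.EHD Pool.Agent.H80.EQ

theorem Cls_mono {k p q : ℕ} {K : Set (Fin (k + 1) → ℂ)} {A A' : ℝ}
    {S : Form (Fin (k + 1)) p} (h0 : 0 ≤ mass q (om (k + 1) p)) (hA : A ≤ A')
    (h : Cls K q A S) : Cls K q A' S :=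
  ⟨h.pf, h.ink, h.ms, fun δ h1 h2 =>
    (h.lm δ h1 h2).trans (mul_le_mul_of_nonneg_right hA h0)⟩

/-- Row EKF. -/
theorem pf_EKF (hKA : T_KA) (hP1 : T_P1) (hP3 : T_P3) (hP5 : T_P5) (hP7 : T_P7) (hD12 : T_D12)
    (hL3 : T_L3) (hD7 : T_D7) : T_EKF := by
  intro k d p q F 𝒦 hd hk hE hC η hη
  have hF : IsH d F := hE.isH
  have hN : p + q + 1 = k + 1 := by omega
  obtain ⟨hG, -, B, hB0, -, hB⟩ := hKA (k + 1) d F hd hF
  have hell : Pot (ell : (Fin (k + 1) → ℂ) → ℝ) := (hL3 (k + 1)).1
  have hd1 : 1 ≤ d := by omega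
  have hom : ProjForm (om (k + 1) p) := (hD7 (k + 1) p).1
  have hc0 : 0 ≤ mass q (om (k + 1) p) := (hP5 (k + 1) p q d (om (k + 1) p) hN hom).2.2
  set c0 := mass q (om (k + 1) p) with hc0def
  obtain ⟨l, hl⟩ := kf_choose hd (show (0 : ℝ) ≤ 2 * ((2 * q + 1) * (B * c0)) by positivity)
    (half_pos hη)
  -- slots
  have hsl : ∀ (n j : ℕ) (i : Fin q),
      Pot ((fun i : Fin q => if (i : ℕ) < j then Gn F d n else ell) i) := by
    intro n j i
    by_cases h : (i : ℕ) < j
    · simp only [h, if_true]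
      exact hG n
    · simp only [h, if_false]
      exact hell
  have hconv : ∀ j : ℕ, ∃ a : ℝ, 0 < a ∧ ∀ K ∈ 𝒦, ∃ n0 : ℕ, ∀ m ≥ n0,
      ∀ S : Form (Fin (k + 1)) p, Cls K q (a * (d : ℝ) ^ m) S →
      |pair (fun z => Gn F d l z - ell z) (Sn F d m S)
          (fun i : Fin q => if (i : ℕ) < j then Gn F d l else ell) -
        pair (fun z => Gn F d l z - ell z) (Sn F d m (om (k + 1) p))
          (fun i : Fin q => if (i : ℕ) < j then Gn F d l else ell)| < η / 8 := fun j =>
    hC q hk _ _ (kf_Hom0 (hG l) hell) (hsl l j) (η / 8) (by positivity)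
  choose af haf hconv2 using hconv
  obtain ⟨j0, -, hmin⟩ := Finset.exists_min_image (Finset.range (q + 1)) af
    ⟨0, Finset.mem_range.mpr (Nat.succ_pos q)⟩
  refine ⟨af j0, haf j0, ?_⟩
  intro K hK
  have hconv3 := fun j => hconv2 j K hK
  choose n0 hn0 using hconv3
  refine ⟨max l ((Finset.range (q + 1)).sup n0), ?_⟩
  intro m hm n hn j R R' hR hR'
  have hml : l ≤ m := (le_max_left _ _).trans hm
  have hln : l ≤ n := hml.trans hn
  -- reduction to j ≤ q
  have hj : (fun i : Fin q => if (i : ℕ) < j then Gn F d n else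
      (ell : (Fin (k + 1) → ℂ) → ℝ)) =
      fun i : Fin q => if (i : ℕ) < min j q then Gn F d n else ell := by
    funext i
    have hi := i.isLt
    by_cases h : (i : ℕ) < j
    · rw [if_pos h, if_pos (lt_min h hi)]
    · rw [if_neg h, if_neg (fun h' => h (lt_of_lt_of_le h' (min_le_left _ _)))]
  rw [hj]
  set i := min j q with hi
  have hir : i ∈ Finset.range (q + 1) :=
    Finset.mem_range.mpr (Nat.lt_succ_of_le (min_le_right _ _))
  have hi' : n0 i ≤ m := by
    have h1 : n0 i ≤ (Finset.range (q + 1)).sup n0 := Finset.le_sup (f := n0) hir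
    exact h1.trans ((le_max_right _ _).trans hm)
  -- error for one form
  have err : ∀ S : Form (Fin (k + 1)) p, ProjForm S → mass q S = c0 →
      |pair (fun z => Gn F d n z - ell z) (Sn F d m S)
          (fun t : Fin q => if (t : ℕ) < i then Gn F d n else ell) -
        pair (fun z => Gn F d l z - ell z) (Sn F d m S)
          (fun t : Fin q => if (t : ℕ) < i then Gn F d l else ell)| ≤
        (2 * q + 1) * (B * c0) * (1 / (d : ℝ) ^ l) := by
    intro S hS hmS
    have hT : ProjForm (Sn F d m S) := (hD12 (k + 1) d F hd1 hF 0 m).2.2.2.2 p S hS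
    have hmT : mass q (Sn F d m S) = c0 := by
      rw [(hP5 (k + 1) p q d S hN hS).2.1 F m hd1 hF, hmS]
    have a1 := kf_fun hP1 hP3 hN hT (hG n) (hG l) hell (hsl n i) (b := B / (d : ℝ) ^ l)
      (fun z hz => hB l n z hln hz)
    have a2 := kf_slots hP7 hN hT (hG l) hell (hsl n i) (hsl l i) (b := B / (d : ℝ) ^ l) (by
      intro t z hz
      by_cases h : (t : ℕ) < i
      · simp only [h, if_true]
        exact hB l n z hln hz
      · simp only [h, if_false, sub_self, abs_zero]
        positivity)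
    rw [hmT] at a1 a2
    have t := abs_sub_le (pair (fun z => Gn F d n z - ell z) (Sn F d m S)
          (fun t : Fin q => if (t : ℕ) < i then Gn F d n else ell))
        (pair (fun z => Gn F d l z - ell z) (Sn F d m S)
          (fun t : Fin q => if (t : ℕ) < i then Gn F d n else ell))
        (pair (fun z => Gn F d l z - ell z) (Sn F d m S)
          (fun t : Fin q => if (t : ℕ) < i then Gn F d l else ell))
    refine t.trans ((add_le_add a1 a2).trans (le_of_eq ?_))
    ring
  have hle : af j0 * (d : ℝ) ^ m ≤ af i * (d : ℝ) ^ m :=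
    mul_le_mul_of_nonneg_right (hmin i hir) (by positivity)
  have e1 := err R hR.pf hR.ms
  have e2 := err R' hR'.pf hR'.ms
  have e3 := hn0 i m hi' R (Cls_mono hc0 hle hR)
  have e4 := hn0 i m hi' R' (Cls_mono hc0 hle hR')
  have e5 : (2 * q + 1) * (B * c0) * (1 / (d : ℝ) ^ l) +
      (2 * q + 1) * (B * c0) * (1 / (d : ℝ) ^ l) ≤ η / 2 := by
    refine le_trans (le_of_eq ?_) hl
    ring
  rw [abs_le] at e1 e2 ⊢
  rw [abs_lt] at e3 e4
  constructor
  · linarith [e1.1, e2.2, e3.1, e4.2]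
  · linarith [e1.2, e2.1, e3.2, e4.1]

end Pool.Agent.H55.EHD
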